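import Pool.Agent.Run7.h369.AsmC

/-!
# Division points and places

(helper369.)
-/

set_option autoImplicit false
set_option linter.all false

open WeierstrassCurve Pool.Agent.H901R3.MS Pool.Agent.TH954 Pool.Agent.TH942

namespace Run7.h369.Div

open Run7.h369.Ell Run7.h369.Bc Run7.h369.Pw Run7.h369.Kum Run7.h369.Par Run7.h369.Lev
  Run7.h369.AsmL Run7.h369.AsmC
open Pool.Agent.Y157.PS Pool.Agent.Y157.PC Run7.h369.CloB

section a

variable {k N : Type} [Field k] [CharZero k] [Field N] [Algebra k N] {u t : k} {c : Fin 3 → k}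

open scoped Classical in
/-- at a place where the point `R` reduces to zero, `X` reduces to `u` -/
theorem reduces (h : Dis u t c) (W : ValuationSubring N) (hW : ∀ a : k, algebraMap k N a ∈ W)
    {X w : N} (hX : X ≠ algebraMap k N t) (hw : Eqw u t c X w) (n : ℕ) {XR YR : N}
    (hR : ((sw (aa u t c) (bb u t c)).baseChange N).toAffine.Nonsingular XR YR) (hXR : XR ∉ W)
    (h2 : n • (.some XR YR hR : PM (aa u t c) (bb u t c) N) = pt h X w hX hw - qt h N ∨
      n • (.some XR YR hR : PM (aa u t c) (bb u t c) N) = pt h X w hX hw + qt h N) :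
    X - algebraMap k N u ∈ W.nonunits := by
  obtain ⟨C, _, _, _, _, pl, hplW, hpl0⟩ := exists_plc W hW
  obtain ⟨red, h1, h2'⟩ := exists_redM pl (disc4 h.roots)
  have hkU : ∀ z : k, z ≠ 0 → IsU W (algebraMap k N z) := fun z hz =>
    ⟨(_root_.map_ne_zero _).2 hz, hW z, by rw [← map_inv₀]; exact hW _⟩
  have hR0 : red (.some XR YR hR) = 0 := h1 _ _ _ (by rw [hplW]; exact hXR)
  have hut : IsU W (algebraMap k N u - algebraMap k N t) := by
    rw [← map_sub]
    exact hkU _ (sub_ne_zero.2 h.ut)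
  have hxqW : xp u t c (algebraMap k N u) ∈ W := by
    unfold xp
    exact add_mem (by rw [div_eq_mul_inv]; exact mul_mem (hW _) hut.2.2) (hW _)
  have hxq : xp u t c (algebraMap k N u) ∈ pl.W := by rw [hplW]; exact hxqW
  obtain ⟨hyq, hq', e2⟩ := h2' _ _ (nonsP h (u_ne h N) (eqw_one N)) hxq
  have hQ : red (qt h N) = .some _ _ hq' := e2
  have hP : red (pt h X w hX hw) = red (qt h N) ∨ red (pt h X w hX hw) = -red (qt h N) := by
    rcases h2 with h2 | h2
    · left
      have h3 := congrArg red h2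
      rw [map_nsmul, hR0, smul_zero, map_sub] at h3
      exact (sub_eq_zero.1 h3.symm)
    · right
      have h3 := congrArg red h2
      rw [map_nsmul, hR0, smul_zero, map_add] at h3
      exact eq_neg_of_add_eq_zero_left h3.symm
  have hx : ∃ hxP : xp u t c X ∈ pl.W, pl.ρ ⟨_, hxP⟩ = pl.ρ ⟨_, hxq⟩ := by
    by_cases hxP : xp u t c X ∈ pl.W
    · refine ⟨hxP, ?_⟩
      obtain ⟨hyP, hp', e1⟩ := h2' _ _ (nonsP h hX hw) hxP
      have e1' : red (pt h X w hX hw) = .some _ _ hp' := e1
      rw [e1', hQ] at hP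
      rcases hP with hP | hP
      · rw [Affine.Point.some.injEq] at hP
        exact hP.1
      · obtain ⟨y', h', e3⟩ := neg_x hq'
        rw [e3, Affine.Point.some.injEq] at hP
        exact hP.1
    · exfalso
      have e1 : red (pt h X w hX hw) = 0 := h1 _ _ _ hxP
      rw [e1, hQ] at hP
      rcases hP with hP | hP
      · cases hP
      · obtain ⟨y', h', e3⟩ := neg_x hq'
        rw [e3] at hP
        cases hP
  obtain ⟨hxP, hρ⟩ := hx
  have hxPW : xp u t c X ∈ W := by rw [← hplW]; exact hxP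
  -- the difference is a nonunit
  have hdn : xp u t c X - xp u t c (algebraMap k N u) ∈ W.nonunits := by
    by_contra hno
    have hU := isU_of_not_nonunit (sub_mem hxPW hxqW) hno
    have hd0 : pl.ρ (⟨_, hxP⟩ - ⟨_, hxq⟩) = 0 := by rw [map_sub, hρ, sub_self]
    have hinv : (xp u t c X - xp u t c (algebraMap k N u))⁻¹ ∈ pl.W := by
      rw [hplW]
      exact hU.2.2
    have h3 : ((⟨_, hxP⟩ - ⟨_, hxq⟩ : pl.W)) * ⟨_, hinv⟩ = 1 :=
      Subtype.ext (mul_inv_cancel₀ hU.1)
    have h4 := congrArg pl.ρ h3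
    rw [map_mul, hd0, zero_mul, map_one] at h4
    exact zero_ne_one h4
  have hXt0 : X - algebraMap k N t ≠ 0 := sub_ne_zero.2 hX
  have hgU := hkU _ h.gg_ne
  have e1 : xp u t c X - algebraMap k N (hh u t c) =
      algebraMap k N (gg u t c) / (X - algebraMap k N t) := by
    unfold xp
    ring
  have hUd : IsU W (xp u t c X - algebraMap k N (hh u t c)) := by
    have e2 : xp u t c X - algebraMap k N (hh u t c) =
        algebraMap k N (gg u t c) / (algebraMap k N u - algebraMap k N t) +
          (xp u t c X - xp u t c (algebraMap k N u)) := by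
      unfold xp
      ring
    rw [e2]
    exact isU_add_non (hgU.div hut) hdn
  have e3 : X - algebraMap k N t =
      algebraMap k N (gg u t c) / (xp u t c X - algebraMap k N (hh u t c)) := by
    have hg := hgU.1
    rw [e1, div_div_eq_mul_div, mul_div_cancel_left₀ _ hg]
  have hXtU : IsU W (X - algebraMap k N t) := by
    rw [e3]
    exact hgU.div hUd
  have e4 : X - algebraMap k N u = -((algebraMap k N u - algebraMap k N t) *
      (X - algebraMap k N t) * (algebraMap k N (gg u t c))⁻¹) *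
        (xp u t c X - xp u t c (algebraMap k N u)) := by
    unfold xp
    have n1 := hgU.1
    have n2 := hut.1
    field_simp
    ring
  rw [e4]
  exact non_mul (neg_mem (mul_mem (mul_mem hut.2.1 hXtU.2.1) hgU.2.2)) hdn

end a

section b

variable {k N Ω κ : Type} [Field k] [CharZero k] [Field N] [Algebra k N] [Field Ω] [Algebra k Ω]
  [IsAlgClosed Ω] [Field κ] [Algebra k κ] [IsAlgClosed κ] [Algebra.IsAlgebraic k κ]
  {u t : k} {c : Fin 3 → k}

open scoped Classical in
/-- two homomorphisms with the same action on the constants, of which one fixes a division point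
and the other one stabilises a place where this point reduces to zero, act in the same way on all
division points -/
theorem same_act (h : Dis u t c) (e : N →ₐ[k] Ω) (j : κ →ₐ[k] N) (W : ValuationSubring N)
    (hW : ∀ a : k, algebraMap k N a ∈ W)
    {X w : N} (hX : X ≠ algebraMap k N t) (hw : Eqw u t c X w) (n : ℕ) {XR YR : N}
    (hR : ((sw (aa u t c) (bb u t c)).baseChange N).toAffine.Nonsingular XR YR) (hXR : XR ∉ W)
    (h2 : 2 ^ n • (.some XR YR hR : PM (aa u t c) (bb u t c) N) = pt h X w hX hw - qt h N ∨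
      2 ^ n • (.some XR YR hR : PM (aa u t c) (bb u t c) N) = pt h X w hX hw + qt h N)
    (σ : κ →ₐ[k] κ) (s τ : N →ₐ[k] N) (hs : ∀ a, s (j a) = j (σ a))
    (hτ : ∀ a, τ (j a) = j (σ a)) (hsX : s X = X) (hτX : τ X = X) (hsw : s w = w)
    (hτw : τ w = w) (hsR : s XR = XR ∧ s YR = YR) (hst : ∀ z, τ z ∈ W ↔ z ∈ W) (w' : N)
    (hw' : Eqw u t c X w') (R' : PM (aa u t c) (bb u t c) N)
    (hR' : 2 ^ n • R' = pt h X w' hX hw') :
    pm (sw (aa u t c) (bb u t c)) s R' = pm (sw (aa u t c) (bb u t c)) τ R' := by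
  obtain ⟨C, _, _, _, _, pl, hplW, hpl0⟩ := exists_plc W hW
  obtain ⟨red, h1, h2'⟩ := exists_redM pl (disc4 h.roots)
  have c2 : CharZero κ := charZero_of_injective_algebraMap (algebraMap k κ).injective
  have hredpm := fun T : PM (aa u t c) (bb u t c) κ => red_pm (pl := pl) (a := aa u t c)
    (b := bb u t c) (red := red) (map_zero red) h1 h2' j (pl.iot j) (pl.iot_spec j) T
  set R : PM (aa u t c) (bb u t c) N := .some XR YR hR with hRdef
  have hR0 : red R = 0 := h1 _ _ _ (by rw [hplW]; exact hXR)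
  have hsR' : pm (sw (aa u t c) (bb u t c)) s R = R := by
    obtain ⟨h', e'⟩ := pm_some (E := sw (aa u t c) (bb u t c)) s hR
    rw [hRdef, e', Affine.Point.some.injEq]
    exact hsR
  have hPτ : pm (sw (aa u t c) (bb u t c)) τ (pt h X w hX hw) = pt h X w hX hw :=
    pm_pt h hX hw _ hX hw hτX hτw
  have hq : ∀ f : N →ₐ[k] N, pm (sw (aa u t c) (bb u t c)) f (qt h N) = qt h N := pm_qt h
  have hτ0 : red (pm (sw (aa u t c) (bb u t c)) τ R) = 0 := by
    obtain ⟨h', e'⟩ := pm_some (E := sw (aa u t c) (bb u t c)) τ hR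
    rw [hRdef, e']
    apply h1
    intro hmem
    rw [hplW, hst] at hmem
    exact hXR hmem
  have hτR : pm (sw (aa u t c) (bb u t c)) τ R = R := by
    rw [← sub_eq_zero]
    have htor : 2 ^ n • (pm (sw (aa u t c) (bb u t c)) τ R - R) = 0 := by
      rw [smul_sub, ← map_nsmul]
      rcases h2 with h2 | h2
      · rw [h2, map_sub, hPτ, hq, sub_self]
      · rw [h2, map_add, hPτ, hq, sub_self]
    obtain ⟨T0, hT0⟩ := tors_N h.roots e j Nat.one_le_two_pow _ htor
    rw [← hT0]
    have h6 : T0 = 0 := pm_injective (E := sw (aa u t c) (bb u t c)) (pl.iot j) (by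
      rw [← hredpm, hT0, map_sub, hτ0, hR0, sub_self, map_zero])
    rw [h6, map_zero]
  have hsj : ∀ T, pm (sw (aa u t c) (bb u t c)) s (pm (sw (aa u t c) (bb u t c)) j T) =
      pm (sw (aa u t c) (bb u t c)) j (pm (sw (aa u t c) (bb u t c)) σ T) := by
    intro T
    rw [pm_pm, pm_pm]
    congr 2
    apply AlgHom.ext
    intro a
    exact hs a
  have hτj : ∀ T, pm (sw (aa u t c) (bb u t c)) τ (pm (sw (aa u t c) (bb u t c)) j T) =
      pm (sw (aa u t c) (bb u t c)) j (pm (sw (aa u t c) (bb u t c)) σ T) := by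
    intro T
    rw [pm_pm, pm_pm]
    congr 2
    apply AlgHom.ext
    intro a
    exact hτ a
  obtain ⟨Q', hQ'⟩ := exists_nsmul_base (disc4 h.roots) κ (n := 2 ^ n) Nat.one_le_two_pow (qt h κ)
  have hjQ : 2 ^ n • pm (sw (aa u t c) (bb u t c)) j Q' = qt h N := by
    rw [← map_nsmul, hQ', pm_qt]
  have hcl : ∀ D : PM (aa u t c) (bb u t c) N, (2 ^ n • D = qt h N ∨ 2 ^ n • D = -qt h N) →
      ∃ T, pm (sw (aa u t c) (bb u t c)) j T = D := by
    rintro D (hD | hD)
    · obtain ⟨T0, hT0⟩ := tors_N h.roots e j Nat.one_le_two_pow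
        (D - pm (sw (aa u t c) (bb u t c)) j Q') (by rw [smul_sub, hD, hjQ, sub_self])
      exact ⟨T0 + Q', by rw [map_add, hT0, sub_add_cancel]⟩
    · obtain ⟨T0, hT0⟩ := tors_N h.roots e j Nat.one_le_two_pow
        (D + pm (sw (aa u t c) (bb u t c)) j Q') (by rw [smul_add, hD, hjQ, neg_add_cancel])
      exact ⟨T0 - Q', by rw [map_sub, hT0, add_sub_cancel_right]⟩
  have hdec : ∃ T, R' = R + pm (sw (aa u t c) (bb u t c)) j T ∨
      R' = -R + pm (sw (aa u t c) (bb u t c)) j T := by
    have hD0 : algebraMap k N (dd u t c) ≠ 0 := (_root_.map_ne_zero _).2 h.dd_ne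
    have hsq : w' ^ 2 = w ^ 2 := by
      apply mul_left_cancel₀ hD0
      rw [hw, hw']
    rcases sq_eq_sq_iff_eq_or_eq_neg.1 hsq with h3 | h3
    · have h4 : 2 ^ n • R' = pt h X w hX hw := by
        rw [hR']
        exact pt_congr h _ _ _ _ rfl h3
      obtain ⟨T, hT⟩ := hcl (R' - R) (by
        rw [smul_sub, h4]
        rcases h2 with h2 | h2
        · left
          rw [h2]
          abel
        · right
          rw [h2]
          abel)
      exact ⟨T, Or.inl (by rw [hT]; abel)⟩
    · have h4 : 2 ^ n • R' = -pt h X w hX hw := by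
        rw [hR', neg_pt]
        exact pt_congr h _ _ _ _ rfl h3
      obtain ⟨T, hT⟩ := hcl (R' + R) (by
        rw [smul_add, h4]
        rcases h2 with h2 | h2
        · right
          rw [h2]
          abel
        · left
          rw [h2]
          abel)
      exact ⟨T, Or.inr (by rw [hT]; abel)⟩
  obtain ⟨T, hT | hT⟩ := hdec
  · rw [hT, map_add, map_add, hsR', hτR, hsj, hτj]
  · rw [hT, map_add, map_add, map_neg, map_neg, hsR', hτR, hsj, hτj]

open scoped Classical in
/-- the point `R` is not constant -/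
theorem not_const (h : Dis u t c) (j : κ →ₐ[k] N) {X w : N} (hXt : Transcendental k X)
    (hX : X ≠ algebraMap k N t) (hw : Eqw u t c X w) (n : ℕ) (R : PM (aa u t c) (bb u t c) N)
    (h2 : 2 ^ n • R = pt h X w hX hw - qt h N ∨ 2 ^ n • R = pt h X w hX hw + qt h N)
    (hR : ∃ T, pm (sw (aa u t c) (bb u t c)) j T = R) : False := by
  obtain ⟨T, rfl⟩ := hR
  have h3 : ∃ T', pm (sw (aa u t c) (bb u t c)) j T' = pt h X w hX hw := by
    rcases h2 with h2 | h2
    · refine ⟨2 ^ n • T + qt h κ, ?_⟩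
      rw [map_add, map_nsmul, h2, pm_qt, sub_add_cancel]
    · refine ⟨2 ^ n • T - qt h κ, ?_⟩
      rw [map_sub, map_nsmul, h2, pm_qt, add_sub_cancel_right]
  obtain ⟨T', hT'⟩ := h3
  rcases T' with _ | ⟨a, b, hab⟩
  · exact absurd hT' (by intro h4; cases h4)
  · obtain ⟨h', e'⟩ := pm_some (E := sw (aa u t c) (bb u t c)) j hab
    rw [e'] at hT'
    unfold pt at hT'
    rw [Affine.Point.some.injEq] at hT'
    have h4 := hT'.1
    unfold xp at h4
    -- `X` is algebraic
    have hXt0 : X - algebraMap k N t ≠ 0 := sub_ne_zero.2 hX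
    have hg : algebraMap k N (gg u t c) ≠ 0 := (_root_.map_ne_zero _).2 h.gg_ne
    have h5 : j (a - algebraMap k κ (hh u t c)) * (X - algebraMap k N t) =
        algebraMap k N (gg u t c) := by
      rw [map_sub, j.commutes, h4]
      field_simp
      ring
    have h6 : j (a - algebraMap k κ (hh u t c)) ≠ 0 := by
      intro h0
      rw [h0, zero_mul] at h5
      exact hg h5.symm
    have h7 : X = j (algebraMap k κ (gg u t c) / (a - algebraMap k κ (hh u t c)) +
        algebraMap k κ t) := by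
      rw [map_add, map_div₀, j.commutes, j.commutes, ← h5, mul_div_cancel_left₀ _ h6]
      ring
    apply hXt
    rw [h7]
    exact (Algebra.IsAlgebraic.isAlgebraic (R := k) _).algHom j

end b

end Run7.h369.Div
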