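import Pool.Agent.W623.SecG.Res

/-! # The residue field at a branch point -/

set_option autoImplicit false
set_option linter.all false

open Pool.Agent.W620.SC Pool.Agent.W623.SecC Pool.Agent.W623.SecE Polynomial IntermediateField
  Pool.Agent.W623.SecG

namespace Pool.Agent.Run7.h369.V5

/-- a valuation ring above a branch point has on the function field the residue field `k` -/
theorem residue {k F N : Type} [Field k] [Field F] [Field N] [Algebra k F] [Algebra F N]
    [Algebra k N] [IsScalarTower k F N] [CharZero k] {K : Type} [Fintype K] [DecidableEq K]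
    (e : K → k) (he : Function.Injective e) (d : k) (hd : d ≠ 0) (x y : F)
    (hx : Transcendental k x)
    (hxy : algebraMap k F d * y ^ 2 = ∏ l, (x - algebraMap k F (e l)))
    (hF : adjoin k {x, y} = (⊤ : IntermediateField k F)) (k0 : K) (W : ValuationSubring N)
    (hk' : ∀ c : k, algebraMap F N (algebraMap k F c) ∈ W)
    (hx0' : algebraMap F N (x - algebraMap k F (e k0)) ∈ W.nonunits) (z : F)
    (hz : algebraMap F N z ∈ W) :
    ∃ c : k, algebraMap F N (z - algebraMap k F c) ∈ W.nonunits := by
  have hcoe : ∀ c : k, algebraMap k N c = algebraMap F N (algebraMap k F c) := fun c =>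
    IsScalarTower.algebraMap_apply k F N c
  have hk : ∀ c : k, algebraMap k N c ∈ W := fun c => by
    rw [hcoe]
    exact hk' c
  set x' : N := algebraMap F N x with hx'
  set y' : N := algebraMap F N y with hy'
  have hy0 := y_ne e d x y hx hxy
  have hy0' : y' ≠ 0 := (_root_.map_ne_zero _).2 hy0
  have hxy' : algebraMap k N d * y' ^ 2 = ∏ l, (x' - algebraMap k N (e l)) := by
    have h1 := congrArg (algebraMap F N) hxy
    rw [map_mul, map_pow, map_prod, ← hcoe] at h1
    rw [h1]
    exact Finset.prod_congr rfl fun l _ => by rw [map_sub, hcoe]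
  have hx0 : x' - algebraMap k N (e k0) ∈ W.nonunits := by
    rw [hcoe, hx', ← map_sub]
    exact hx0'
  obtain ⟨T, hkT, hxT, hyT, hgood, -⟩ := good_base e he d hd x' y' hy0' hxy' hk k0 hx0
  obtain ⟨-, -, hyn⟩ := Ex_x e he d hd x' y' hy0' hxy' hk k0 hx0
  have hzT : algebraMap F N z ∈ T := by
    clear hz
    have hz : z ∈ adjoin k {x, y} := by
      rw [hF]
      trivial
    induction hz using adjoin_induction with
    | mem z hz =>
      rcases hz with rfl | hz
      · exact hxT
      · rw [Set.mem_singleton_iff.1 hz]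
        exact hyT
    | algebraMap c => rw [← hcoe]; exact hkT c
    | add a b _ _ ha hb => rw [map_add]; exact add_mem ha hb
    | inv a _ ha => rw [map_inv₀]; exact inv_mem ha
    | mul a b _ _ ha hb => rw [map_mul]; exact mul_mem ha hb
  have hnz : (0 : N) ∈ W.nonunits := by
    rw [ValuationSubring.mem_nonunits_iff_or]
    exact Or.inl rfl
  by_cases hz0 : z = 0
  · refine ⟨0, ?_⟩
    rw [hz0, map_zero, sub_zero, map_zero]
    exact hnz
  obtain ⟨n, r, hr, hex⟩ := hgood _ hzT ((_root_.map_ne_zero _).2 hz0)
  rcases lt_trichotomy n 0 with hn | hn | hn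
  · exfalso
    have hu := hex.isU hk hr
    apply hu.not_nonunit
    obtain ⟨m, hm⟩ := Int.eq_ofNat_of_zero_le (show 0 ≤ -n by omega)
    have hm' : n = -(m : ℤ) := by omega
    rw [hm', zpow_neg, div_inv_eq_mul, zpow_natCast]
    exact nonunit_mul hz (pow_nonunit hyn (by omega))
  · subst hn
    refine ⟨r, ?_⟩
    unfold Ex at hex
    rw [zpow_zero, div_one] at hex
    rw [map_sub, ← hcoe]
    exact hex
  · refine ⟨0, ?_⟩
    have h1 := hex.low hk hyn hy0' hn
    unfold Ex at h1
    rw [zpow_zero, div_one, map_zero, sub_zero] at h1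
    rw [map_zero, sub_zero]
    exact h1

end Pool.Agent.Run7.h369.V5
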