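import Pool.Agent.Run7.h369.D3.PerM

/-! # The main theorem for one `d`, in the valuative form

The theorems `agree_all` and `perd` of `D3.PerM`, with the automorphism which stabilises the place
in the conclusion. -/

set_option autoImplicit false
set_option linter.all false

open Polynomial

namespace Pool.Agent.Run7.h369.V5

open Finset Pool.Agent.Y157.PS Pool.Agent.Y157.PC Pool.Agent.Run7.h369.D3

section one

variable {K : Type} [Fintype K] [DecidableEq K] (e : K → ℤ) (he : Function.Injective e)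
  (hev : Even (Fintype.card K)) (h4 : 4 ≤ Fintype.card K) (d : ℤ) (hd : Squarefree d)
  {F Ω : Type} [Field F] [Field Ω] [Algebra ℚ F] [Algebra F Ω] [Algebra ℚ Ω]
  [IsScalarTower ℚ F Ω] [IsAlgClosed Ω] [Algebra.IsAlgebraic F Ω] (x y : F)
  (hx : Transcendental ℚ x)
  (hxy : algebraMap ℚ F (d : ℚ) * y ^ 2 = ∏ i, (x - algebraMap ℚ F (e i : ℚ)))
  (hF : IntermediateField.adjoin ℚ {x, y} = (⊤ : IntermediateField ℚ F))
  (i j0 : K) (hj0 : j0 ≠ i) (N : IntermediateField F Ω)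

include he hev h4 hd hx hxy hF in
/-- agreement of the section with an automorphism which stabilises the place -/
theorem agree_all (hN : Normal F N) (hκN : ∀ c : algebraicClosure ℚ Ω, (c : Ω) ∈ N)
    (σ : algebraicClosure ℚ Ω ≃ₐ[ℚ] algebraicClosure ℚ Ω) (s : N ≃ₐ[F] N)
    (hs : ∀ (c : algebraicClosure ℚ Ω) (z : N), (z : Ω) = (c : Ω) → (s z : Ω) = (σ c : Ω))
    (z : K → N) (hz : ZSys e d i (algebraMap F N x) z) (hsz : ∀ j, j ≠ i → s (z j) = z j)
    (l : Rel i → ℤ) (v : Rel i → N) (hl : ∀ w, l w ≠ 0) (hsv : ∀ w, s (v w) = v w)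
    (hlv : ∀ w : Rel i, (l w : N) * (v w) ^ 2 = ff z w.1)
    (W0 : ValuationSubring Ω) (hWq : ∀ c : ℚ, algebraMap ℚ Ω c ∈ W0)
    (hWπ : algebraMap F Ω x - algebraMap ℚ Ω (e i : ℚ) ∈ W0.nonunits)
    (hj0 : j0 ≠ i)
    (hsq : ∀ w : Rel i, IsSquare (l w * (cc e i (pat W0 (fun j => (z j : Ω)) i j0) w.1 *
      d ^ nn (pat W0 (fun j => (z j : Ω)) i j0) w.1)))
    :
    ∃ t : Ω ≃ₐ[F] Ω, (∀ z, t z ∈ W0 ↔ z ∈ W0) ∧ (∀ c : algebraicClosure ℚ Ω, t (c : Ω) = (σ c : Ω)) ∧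
      ∀ a ∈ Lvl₃ (algebraMap F N) (fun j => (e j : ℚ)) x i, (s a : Ω) = t (a : Ω) := by
  haveI : CharZero F := algebraRat.charZero F
  haveI : CharZero N := charZero_of_injective_algebraMap (algebraMap F N).injective
  haveI : CharZero Ω := charZero_of_injective_algebraMap (algebraMap F Ω).injective
  haveI hac : IsAlgClosure ℚ (algebraicClosure ℚ Ω) := Pool.Agent.Y968.PC.algClosQ Ω
  haveI hkb : IsAlgClosed (algebraicClosure ℚ Ω) := hac.1
  obtain ⟨t, ht1, ht2⟩ := twist_stable e he hev h4 d hd.ne_zero x y hx hxy hF i N hN hκN σ s hs W0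
    hWq hWπ
  -- the two homomorphisms
  set gs : N →+* Ω := (algebraMap N Ω).comp (s : N →+* N) with hgs
  set gt : N →+* Ω := (t : Ω →+* Ω).comp (algebraMap N Ω) with hgt
  have hgs' : ∀ a : N, gs a = (s a : Ω) := fun a => rfl
  have hgt' : ∀ a : N, gt a = t (a : Ω) := fun a => rfl
  suffices hall : ∀ a ∈ Lvl₃ (algebraMap F N) (fun j => (e j : ℚ)) x i, gs a = gt a from
    ⟨t, ht1, ht2, fun a ha => hall a ha⟩
  -- the constants
  let ι : algebraicClosure ℚ Ω →+* N :=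
    (algebraMap (algebraicClosure ℚ Ω) Ω).codRestrict N.toSubfield (fun c => hκN c)
  have hιc : ∀ c, ((ι c : N) : Ω) = (c : Ω) := fun c => rfl
  have hc : ∀ c, gs (ι c) = gt (ι c) := by
    intro c
    rw [hgs', hs c (ι c) rfl, hgt', hιc, ht2]
  -- elements of `Ω`
  have hW' : ∀ c : ℚ, (c : Ω) ∈ W0 := by
    intro c
    have h1 := hWq c
    rwa [eq_ratCast (algebraMap ℚ Ω) c] at h1
  have hxW' : algebraMap F Ω x - ((e i : ℤ) : Ω) ∈ W0.nonunits := by
    rw [map_intCast] at hWπ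
    exact hWπ
  have hιW : ∀ c : algebraicClosure ℚ Ω, algebraMap (algebraicClosure ℚ Ω) Ω c ∈ W0 := by
    intro c
    obtain ⟨p, hp, hpc⟩ := c.2
    exact alg_mem (algebraMap ℚ Ω) W0 hWq _ p hp hpc
  have hzΩ : ZSys e d i (algebraMap F Ω x) (fun j => (z j : Ω)) := hz.map (algebraMap N Ω)
  have hxN := x_ne_int x hx (algebraMap F N)
  have hxΩ := x_ne_int x hx (algebraMap F Ω)
  have htx : (t : Ω →+* Ω) (algebraMap F Ω x) = algebraMap F Ω x := t.commutes x
  have hty : (t : Ω →+* Ω) (algebraMap F Ω y) = algebraMap F Ω y := t.commutes y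
  have htz : ∀ j, j ≠ i → t (z j : Ω) = (z j : Ω) := fun j hj =>
    t_fix_z (algebraMap (algebraicClosure ℚ Ω) Ω) hιW hW' he hd.ne_zero hxΩ hzΩ
      (eqn_map e d x y hxy (algebraMap F Ω)) hxW' hev (t : Ω →+* Ω) ht1
      (σ : algebraicClosure ℚ Ω →+* algebraicClosure ℚ Ω) ht2 htx hty hj
  have htv : ∀ w : Rel i, t (v w : Ω) = (v w : Ω) := by
    intro w
    refine t_fix_v (algebraMap (algebraicClosure ℚ Ω) Ω) hιW hW' he hd.ne_zero hxΩ hzΩ
      (eqn_map e d x y hxy (algebraMap F Ω)) hxW' hev (t : Ω →+* Ω) ht1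
      (σ : algebraicClosure ℚ Ω →+* algebraicClosure ℚ Ω) ht2 htx hty hj0 w.1 w.2.1 w.2.2
      (l w) (hl w) (v w : Ω) ?_ (hsq w)
    have h1 := congrArg (algebraMap N Ω) (hlv w)
    rw [map_mul, map_pow, map_intCast, ff_map] at h1
    exact h1
  have hgz : ∀ j, j ≠ i → gs (z j) = gt (z j) := by
    intro j hj
    rw [hgs', hgt', hsz j hj, htz j hj]
  -- the subfield on which they agree
  intro a ha
  have hle : Lvl₃ (algebraMap F N) (fun j => (e j : ℚ)) x i ≤ gs.eqLocusField gt := by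
    unfold Lvl₃
    rw [Subfield.closure_le]
    have hR : ∀ (l : K) (z' : N), z' ∈ Rts (algebraMap F N) (fun j => (e j : ℚ)) x i l →
        z' ^ 2 * ((algebraMap F N x - ((e i : ℤ) : N)) * (((e i : ℤ) : N) - ((e l : ℤ) : N))) =
          algebraMap F N x - ((e l : ℤ) : N) := by
      intro l z' hz'
      have h1 : z' ^ 2 * algebraMap F N ((x - algebraMap ℚ F (e i : ℚ)) *
        algebraMap ℚ F ((e i : ℚ) - (e l : ℚ))) = algebraMap F N (x - algebraMap ℚ F (e l : ℚ)) := hz'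
      simp only [map_mul, map_sub, map_intCast] at h1
      exact h1
    rintro a (((ha | ha) | ha) | ha)
    · obtain ⟨b, rfl⟩ := ha
      change gs (algebraMap F N b) = gt (algebraMap F N b)
      rw [hgs', hgt', s.commutes]
      change algebraMap F Ω b = t (algebraMap F Ω b)
      rw [t.commutes]
    · obtain ⟨p, hp0, hp⟩ := ha
      have h1 : IsAlgebraic ℚ (a : Ω) := by
        refine ⟨p, hp0, ?_⟩
        have h2 := congrArg (algebraMap N Ω) hp
        rw [hom_eval₂, map_zero] at h2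
        have h3 : (algebraMap N Ω).comp ((algebraMap F N).comp (algebraMap ℚ F)) =
            algebraMap ℚ Ω := by
          ext b
          exact (IsScalarTower.algebraMap_apply ℚ F Ω b).symm
        rw [h3] at h2
        exact h2
      have h2 : a = ι ⟨(a : Ω), isAlgebraic_iff_isIntegral.1 h1⟩ := Subtype.ext rfl
      change gs a = gt a
      rw [h2]
      exact hc _
    · obtain ⟨m, hm, hz'⟩ := ha
      obtain ⟨c, -, rfl⟩ := root_const ι he hd.ne_zero hxN hz hm a (hR m a hz')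
      change gs _ = gt _
      rw [map_mul, map_mul, hc, hgz m hm]
    · obtain ⟨l1, l2, l3, l4, h1, h2, h3, h4', h12, h34, z1, hz1, z2, hz2, z3, hz3, z4, hz4, hw⟩ := ha
      change gs a = gt a
      refine agree_w ι gs gt hc he hd.ne_zero hxN hz hgz h1 h2 h3 h4' h12 h34 (fun hne => ?_)
        z1 z2 z3 z4 a (hR _ _ hz1) (hR _ _ hz2) (hR _ _ hz3) (hR _ _ hz4) hw
      have hw0 : Adm i ({(l1, l2), (l3, l4)} : Finset (K × K)) ∧
          Even ({(l1, l2), (l3, l4)} : Finset (K × K)).card := by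
        constructor
        · intro p hp
          rw [Finset.mem_insert, Finset.mem_singleton] at hp
          rcases hp with rfl | rfl
          · exact ⟨h12, h1, h2⟩
          · exact ⟨h34, h3, h4'⟩
        · rw [Finset.card_pair hne]
          exact ⟨1, rfl⟩
      refine ⟨l ⟨_, hw0⟩, v ⟨_, hw0⟩, ?_, ?_⟩
      · rw [hgs', hgt', hsv, htv]
      · rw [hlv ⟨_, hw0⟩]
        unfold ff
        rw [Finset.prod_pair hne]
  exact hle ha

include he hev h4 hd hx hxy hF in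
/-- the result for one `d` -/
theorem perd (hROOT : S_ROOT) (hN : Normal F N) (hMN : geomPro 2 ℚ F Ω ≤ N)
    (a : Algebra ℚ (algebraicClosure ℚ Ω))
    (s : (algebraicClosure ℚ Ω ≃ₐ[ℚ] algebraicClosure ℚ Ω) →* (N ≃ₐ[F] N))
    (hcont : Continuous s)
    (hs : ∀ σ (c : algebraicClosure ℚ Ω) (z : N), (z : Ω) = (c : Ω) →
      (s σ z : Ω) = (σ c : Ω)) (hj0 : j0 ≠ i)
    (hAt : ∀ l l', l ≠ i → l' ≠ i → ∃ γ : N, (∀ σ, s σ γ = γ) ∧
      (γ : Ω) ^ 2 = algebraMap F Ω ((x - algebraMap ℚ F (e l : ℚ)) *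
        (x - algebraMap ℚ F (e l' : ℚ)) *
        algebraMap ℚ F (((e i : ℚ) - e l) * ((e i : ℚ) - e l'))))
    (hloc : ∀ p : ℕ, p.Prime → (p : ℤ) ∣ d → ¬ (p : ℤ) ∣ 2 →
      (∀ j k, j ≠ k → ¬ (p : ℤ) ∣ e j - e k) →
      ∀ V : ValuationSubring (algebraicClosure ℚ Ω), (p : algebraicClosure ℚ Ω) ∈ V.nonunits →
      ∃ W : ValuationSubring N, (∀ c : ℚ, algebraMap F N (algebraMap ℚ F c) ∈ W) ∧
        algebraMap F N (x - algebraMap ℚ F (e i : ℚ)) ∈ W.nonunits ∧
        ∀ σ : algebraicClosure ℚ Ω ≃ₐ[ℚ] algebraicClosure ℚ Ω, Dec V σ →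
          ∀ z : N, (z : Ω) ∈ geomPro 2 ℚ F Ω → (s σ z ∈ W ↔ z ∈ W))
    (z0 : ℕ) (hz0 : GoodZ e z0) (hp : ∃ p : ℕ, p.Prime ∧ z0 < p ∧ (p : ℤ) ∣ d)
    (hSel : ¬ SelA (aa i j0) (ca e i j0) z0 d) :
    ∃ W0 : ValuationSubring Ω, (∀ c : ℚ, algebraMap ℚ Ω c ∈ W0) ∧
      algebraMap F Ω x - algebraMap ℚ Ω (e i : ℚ) ∈ W0.nonunits ∧
      ∀ σ, ∃ t : Ω ≃ₐ[F] Ω, (∀ z, t z ∈ W0 ↔ z ∈ W0) ∧
        (∀ c : algebraicClosure ℚ Ω, t (c : Ω) = (σ c : Ω)) ∧
        ∀ b ∈ Lvl₃ (algebraMap F N) (fun j => (e j : ℚ)) x i, (s σ b : Ω) = t (b : Ω) := by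
  obtain rfl : a = DivisionRing.toRatAlgebra := Subsingleton.elim _ _
  haveI : CharZero F := algebraRat.charZero F
  haveI : CharZero N := charZero_of_injective_algebraMap (algebraMap F N).injective
  haveI : CharZero Ω := charZero_of_injective_algebraMap (algebraMap F Ω).injective
  haveI : CharZero (geomPro 2 ℚ F Ω) :=
    charZero_of_injective_algebraMap (algebraMap F (geomPro 2 ℚ F Ω)).injective
  have halg : Algebra.IsAlgebraic (IntermediateField.adjoin ℚ {x}) F :=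
    alg_F e d hd.ne_zero x y hxy hF
  obtain ⟨T, hT, hT2⟩ := a_ind2 2 ℚ F Ω x hx halg N hMN _ s hcont
  obtain ⟨⟨z, hz⟩, hroot⟩ := hROOT K e he hev h4 d hd.ne_zero F Ω x y hx hxy hF i
  -- the inclusion
  let inc : geomPro 2 ℚ F Ω →+* N :=
    (algebraMap (geomPro 2 ℚ F Ω) Ω).codRestrict N.toSubfield (fun a => hMN a.2)
  have hinc : ∀ a, ((inc a : N) : Ω) = (a : Ω) := fun a => rfl
  have hincx : inc (algebraMap F (geomPro 2 ℚ F Ω) x) = algebraMap F N x := Subtype.ext rfl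
  have hTs : ∀ σ a, inc (T σ a) = s σ (inc a) := by
    intro σ a
    apply Subtype.ext
    rw [hinc]
    exact hT2 σ (inc a) a rfl
  have hTc : ∀ σ (c : algebraicClosure ℚ Ω) (z : geomPro 2 ℚ F Ω), (z : Ω) = (c : Ω) →
      (T σ z : Ω) = (σ c : Ω) := by
    intro σ c z hz
    rw [hT2 σ (inc z) z rfl]
    exact hs σ c _ hz
  have hzN : ZSys e d i (algebraMap F N x) (fun j => inc (z j)) := by
    have := hz.map inc
    rwa [hincx] at this
  have hsz : ∀ σ j, j ≠ i → s σ (inc (z j)) = inc (z j) := fun σ j hj =>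
    sec_fix_z e he hev d hd x y hx hxy i N (fun j => inc (z j)) hzN (s σ) (fun l l' hl hl' => by
      obtain ⟨γ, hγ, hγ2⟩ := hAt l l' hl hl'
      exact ⟨γ, hγ σ, hγ2⟩) hj
  have hTz : ∀ σ j, j ≠ i → T σ (z j) = z j := by
    intro σ j hj
    apply inc.injective
    rw [hTs, hsz σ j hj]
  choose l v hl hv hlv hgood using fun w : Rel i =>
    kdata e he hev h4 d hd x y hx hxy hF i T hT hTc z hz hTz
      (fun w hw hwe => hroot z hz w hw hwe) w
  -- the local condition at a good prime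
  have hlocal : ∀ p : ℕ, p.Prime → z0 < p → (p : ℤ) ∣ d →
      ∀ V : ValuationSubring (algebraicClosure ℚ Ω), (p : algebraicClosure ℚ Ω) ∈ V.nonunits →
      ∃ (W : ValuationSubring N) (L : Typ i j0), (∀ c : ℚ, algebraMap F N (algebraMap ℚ F c) ∈ W) ∧
        algebraMap F N (x - algebraMap ℚ F (e i : ℚ)) ∈ W.nonunits ∧
        L.1 = pat W (fun j => inc (z j)) i j0 ∧ LC (aa i j0) (ca e i j0) d l p L := by
    intro p hp hpz hpd V hV
    obtain ⟨hp2, hpe⟩ := hz0 p hp hpz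
    obtain ⟨W, hW1, hW2, hW3⟩ := hloc p hp hpd hp2 hpe V hV
    have hWM1 : ∀ c : ℚ, algebraMap F (geomPro 2 ℚ F Ω) (algebraMap ℚ F c) ∈ W.comap inc :=
      fun c => hW1 c
    have hWM2 : algebraMap F (geomPro 2 ℚ F Ω) (x - algebraMap ℚ F (e i : ℚ)) ∈
        (W.comap inc).nonunits := by
      rw [Pool.Agent.Y780.PC.non_comap]
      exact hW2
    have hWM3 : ∀ σ : algebraicClosure ℚ Ω ≃ₐ[ℚ] algebraicClosure ℚ Ω, Dec V σ →
        ∀ a, T σ a ∈ W.comap inc ↔ a ∈ W.comap inc := by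
      intro σ hσ a
      rw [ValuationSubring.mem_comap, ValuationSubring.mem_comap, hTs]
      exact hW3 σ hσ (inc a) a.2
    have hW' : ∀ c : ℚ, (c : N) ∈ W := by
      intro c
      have h1 := hW1 c
      rwa [eq_ratCast (algebraMap ℚ F) c, map_ratCast] at h1
    refine ⟨W, ⟨pat W (fun j => inc (z j)) i j0, not_mem_pat_i, not_mem_pat_j hW'
      (x_ne_int x hx (algebraMap F N)) hzN hj0⟩, hW1, hW2, rfl, fun w => ?_⟩
    have h5 := klocal e he d hd x hx i j0 T hTc z hz hTz hj0 w (l w) (hl w) (v w) (hv w)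
      (hlv w) p hp hp2 hpe hpd V hV (W.comap inc) hWM1 hWM2 hWM3
    rw [pat_comap] at h5
    unfold aa ca
    simp only [decide_eq_true_eq, decide_eq_false_iff_not, Nat.not_odd_iff_even]
    exact h5
  -- the exceptional case is excluded
  obtain ⟨L, hL⟩ : ∃ L : Typ i j0, ∀ w, IsSquare (l w * ca e i j0 L w *
      (if aa i j0 w L = true then d else 1)) := by
    by_contra hno
    push Not at hno
    refine hSel ⟨l, hl, ?_, ?_, hno⟩
    · intro p hp hpz hpd w
      obtain ⟨hp2, hpe⟩ := hz0 p hp hpz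
      exact hgood w p hp hp2 hpe hpd
    · intro p hp hpz hpd
      obtain ⟨V, hV⟩ := ex_V (κ := algebraicClosure ℚ Ω) p hp
      obtain ⟨W, L, -, -, -, hLC⟩ := hlocal p hp hpz hpd V hV
      exact ⟨L, hLC⟩
  obtain ⟨p, hp, hpz, hpd⟩ := hp
  obtain ⟨V, hV⟩ := ex_V (κ := algebraicClosure ℚ Ω) p hp
  obtain ⟨W, L', hW1, hW2, hL', hLC⟩ := hlocal p hp hpz hpd V hV
  obtain ⟨hp2, hpe⟩ := hz0 p hp hpz
  have hLL : L = L' := by
    by_contra hne
    obtain ⟨w, hw⟩ := sep i j0 h4 hj0 L L' hne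
    have h1 := sq_ind (l w) (ca e i j0 L w) d hd (hl w) p hp hpd
      (not_dvd_cc hp hpe i L.1 w.1 w.2.1) _ (hL w)
    have h2 := hLC w
    apply hw
    cases h3 : aa i j0 w L' with
    | true => rw [h1]; exact (h2.1 h3).1
    | false =>
      cases h4 : aa i j0 w L with
      | true => exact absurd (h1.1 h4) (h2.2 h3).1
      | false => rfl
  subst hLL
  obtain ⟨W0, hW0⟩ := a_extv N Ω W
  have hmem : ∀ a : N, a ∈ W ↔ (a : Ω) ∈ W0 := by
    intro a
    rw [← hW0, ValuationSubring.mem_comap]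
    rfl
  have hWq : ∀ c : ℚ, algebraMap ℚ Ω c ∈ W0 := by
    intro c
    have h1 := (hmem _).1 (hW1 c)
    rw [IsScalarTower.algebraMap_apply ℚ F Ω]
    exact h1
  have hWπ : algebraMap F Ω x - algebraMap ℚ Ω (e i : ℚ) ∈ W0.nonunits := by
    rw [← hW0, Pool.Agent.Y780.PC.non_comap] at hW2
    rw [IsScalarTower.algebraMap_apply ℚ F Ω, ← map_sub]
    exact hW2
  have hpat : pat W0 (fun j => ((inc (z j) : N) : Ω)) i j0 = L.1 := by
    rw [hL', ← hW0, pat_comap]
    rfl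
  refine ⟨W0, hWq, hWπ, fun σ => ?_⟩
  refine agree_all e he hev h4 d hd x y hx hxy hF i j0 N hN (fun c => hMN (const_geomPro 2 ℚ c)) σ
    (s σ) (fun c z hz => hs σ c z hz) (fun j => inc (z j)) hzN (fun j hj => hsz σ j hj) l
    (fun w => inc (v w)) (fun w => (hl w).ne_zero) (fun w => ?_) (fun w => ?_) W0 hWq hWπ hj0
    (fun w => ?_)
  · rw [← hTs, hv]
  · have h1 := congrArg inc (hlv w)
    rw [map_mul, map_pow, map_intCast, ff_map] at h1
    exact h1
  · rw [hpat]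
    exact square_d _ _ _ _ (aa i j0 w L) (by unfold aa; rw [decide_eq_true_eq]) (hL w)

end one

end Pool.Agent.Run7.h369.V5
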